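import Mathlib

set_option autoImplicit false

/-!
Discrete bidding play of combinatorial games, for an arbitrary total budget `TB`.

The theorem `result` at the end of the file: for every total budget, if `G + H = 0` then `H` is equal
to the conjugate of `G`.

Idea of the proof.  For a position `K` let `rr K y` say that every Right move from `K` is won by Left
when Left then has budget `y` and the marker, and let `ll K x` say that some Left move from `K` is won
by Left when Left then has budget `x` and Right the marker.  For `B = H + A`, `D = C + conj H`,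
`E = C + A` one shows by induction
`rr B x ∧ rr D y → rr E (x + y)`, `ll B x ∧ rr D y → ll E (x + y)`, `rr B x ∧ ll D y → ll E (x + y)`.
In particular, if Left wins `C + conj H` when Right owns the whole budget and the marker, then `C ≥ H`.
-/

namespace Pool.Agent.Results.MP_14f067_co.InverseIsConjugate

/-- Game forms: a finite family of Left options and a finite family of Right options, recursively.
Being an inductive type with finite branching, every form has finite birthday. -/
inductive Form : Type
  | node (m n : ℕ) (L : Fin m → Form) (R : Fin n → Form) : Form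

namespace Form

/-- The game form without any options. -/
def zero : Form := node 0 0 Fin.elim0 Fin.elim0

/-- The conjugate form: the roles of Left and Right are swapped throughout. -/
def conj : Form → Form
  | node m n L R => node n m (fun j => conj (R j)) (fun i => conj (L i))

/-- The disjunctive sum.  For `G = node m n L R` and `H = node m' n' L' R'` its Left options are
`L i + H` and `G + L' i`, and its Right options are `R j + H` and `G + R' j`
(this is the equation `add_node` below, which holds by definition). -/
noncomputable def add (G : Form) : Form → Form :=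
  Form.rec (motive := fun _ => Form → Form)
    (fun m n _ _ ihL ihR H =>
      Form.rec (motive := fun _ => Form)
        (fun m' n' L' R' jhL jhR =>
          node (m + m') (n + n')
            (Fin.append (fun i => ihL i (node m' n' L' R')) jhL)
            (Fin.append (fun i => ihR i (node m' n' L' R')) jhR)) H) G

theorem add_node (m n : ℕ) (L : Fin m → Form) (R : Fin n → Form)
    (m' n' : ℕ) (L' : Fin m' → Form) (R' : Fin n' → Form) :
    add (node m n L R) (node m' n' L' R') =
      node (m + m') (n + n')
        (Fin.append (fun i => add (L i) (node m' n' L' R')) (fun i => add (node m n L R) (L' i)))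
        (Fin.append (fun j => add (R j) (node m' n' L' R')) (fun j => add (node m n L R) (R' j))) :=
  rfl

end Form

open Form

/-- Left takes the round: `a` is Left's bid, `b` is Right's bid, and `mark` tells whether Left holds the
marker.  The strictly higher bid takes the round, and on equal bids the marker holder takes it. -/
def leftTakes (mark : Bool) (a b : ℕ) : Prop := b < a ∨ (a = b ∧ mark = true)

/-- Whether Left holds the marker after the round (`true` means that Left holds it).  The holder
before the round is given by `mark`, and `f` tells whether the holder attached the marker to the bid.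
On equal bids the marker passes to the opponent.  If the holder bids strictly more, the marker
passes if it was attached, and stays otherwise.  If the holder bids strictly less it stays. -/
def nextMarker (mark : Bool) (a b : ℕ) (f : Bool) : Bool :=
  if a = b then !mark
  else if (b < a ↔ mark = true) ∧ f = true then !mark
  else mark

/-- `LeftWins TB G p mark`: Left wins from the game form `G` when the total budget is `TB`, Left owns
`p` and Right owns `TB - p`, and Left holds the marker exactly if `mark = true`.  This is pure-strategy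
backward induction: Left has a bid `a ≤ p` (and, as marker holder, a choice `f` whether to attach the
marker) such that whatever Right bids (`b ≤ TB - p`, and `g` as marker holder), either Left takes the
round, pays `a` to Right and has an option from which Left wins, or Right takes the round, pays `b`
to Left, and Left wins from every option of Right.  A player who takes the round without having an
option loses. -/
def LeftWins (TB : ℕ) : Form → ℕ → Bool → Prop
  | Form.node _ _ L R, p, mark =>
    ∃ a : ℕ, a ≤ p ∧ ∃ f : Bool, ∀ b : ℕ, b ≤ TB - p → ∀ g : Bool,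
      (leftTakes mark a b →
        ∃ i, LeftWins TB (L i) (p - a) (nextMarker mark a b (if mark = true then f else g))) ∧
      (¬ leftTakes mark a b →
        ∀ j, LeftWins TB (R j) (p + b) (nextMarker mark a b (if mark = true then f else g)))

/-- `RightWins TB G p mark`: the mirror image, Right has a bid that wins against every bid of Left.
(`leftWins_iff_not_rightWins` below: exactly one of `LeftWins`, `RightWins` holds.) -/
def RightWins (TB : ℕ) : Form → ℕ → Bool → Prop
  | Form.node _ _ L R, p, mark =>
    ∃ b : ℕ, b ≤ TB - p ∧ ∃ g : Bool, ∀ a : ℕ, a ≤ p → ∀ f : Bool,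
      (leftTakes mark a b →
        ∀ i, RightWins TB (L i) (p - a) (nextMarker mark a b (if mark = true then f else g))) ∧
      (¬ leftTakes mark a b →
        ∃ j, RightWins TB (R j) (p + b) (nextMarker mark a b (if mark = true then f else g)))

/-- `G ≥ H` for the total budget `TB`: for every game form `X` the outcome of `G + X` is at least the
outcome of `H + X` for every budget and marker distribution. -/
def Ge (TB : ℕ) (G H : Form) : Prop :=
  ∀ (X : Form) (p : ℕ) (mark : Bool), p ≤ TB → LeftWins TB (add H X) p mark → LeftWins TB (add G X) p mark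

/-- Equality of games `G = H` for the total budget `TB`. -/
def Eqv (TB : ℕ) (G H : Form) : Prop := Ge TB G H ∧ Ge TB H G

/-- `H` is an inverse of `G` for the total budget `TB`: `G + H = 0`. -/
def IsInverse (TB : ℕ) (G H : Form) : Prop := Eqv TB (add G H) zero

/-! ### Options as relations -/

/-- `X` is a Left option of the form. -/
def LO : Form → Form → Prop
  | Form.node _ _ L _, X => ∃ i, L i = X

/-- `X` is a Right option of the form. -/
def RO : Form → Form → Prop
  | Form.node _ _ _ R, X => ∃ j, R j = X

theorem form_ind {P : Form → Prop}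
    (h : ∀ G, (∀ X, LO G X → P X) → (∀ X, RO G X → P X) → P G) : ∀ G, P G := by
  intro G
  induction G with
  | node m n L R ihL ihR =>
    refine h _ ?_ ?_
    · rintro X ⟨i, rfl⟩
      exact ihL i
    · rintro X ⟨j, rfl⟩
      exact ihR j

theorem exists_append {m n : ℕ} {α : Type*} (u : Fin m → α) (v : Fin n → α) (X : α) :
    (∃ i, Fin.append u v i = X) ↔ (∃ i, u i = X) ∨ (∃ j, v j = X) := by
  constructor
  · rintro ⟨i, hi⟩
    induction i using Fin.addCases with
    | left i => exact Or.inl ⟨i, by simpa using hi⟩
    | right j => exact Or.inr ⟨j, by simpa using hi⟩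
  · rintro (⟨i, rfl⟩ | ⟨j, rfl⟩)
    · exact ⟨Fin.castAdd n i, by simp⟩
    · exact ⟨Fin.natAdd m j, by simp⟩

theorem LO_add (G H X : Form) :
    LO (add G H) X ↔ (∃ G', LO G G' ∧ add G' H = X) ∨ (∃ H', LO H H' ∧ add G H' = X) := by
  cases G with
  | node m n L R =>
    cases H with
    | node m' n' L' R' =>
      rw [add_node]
      simp only [LO]
      rw [exists_append]
      simp

theorem RO_add (G H X : Form) :
    RO (add G H) X ↔ (∃ G', RO G G' ∧ add G' H = X) ∨ (∃ H', RO H H' ∧ add G H' = X) := by
  cases G with
  | node m n L R =>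
    cases H with
    | node m' n' L' R' =>
      rw [add_node]
      simp only [RO]
      rw [exists_append]
      simp

theorem LO_conj (G X : Form) : LO (conj G) X ↔ ∃ G', RO G G' ∧ conj G' = X := by
  cases G with
  | node m n L R => simp [LO, RO, conj]

theorem RO_conj (G X : Form) : RO (conj G) X ↔ ∃ G', LO G G' ∧ conj G' = X := by
  cases G with
  | node m n L R => simp [LO, RO, conj]

theorem LO_zero (X : Form) : ¬ LO zero X := by
  rintro ⟨i, -⟩
  exact i.elim0

theorem RO_zero (X : Form) : ¬ RO zero X := by
  rintro ⟨i, -⟩
  exact i.elim0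

theorem leftWins_iff (TB : ℕ) (G : Form) (p : ℕ) (mark : Bool) :
    LeftWins TB G p mark ↔
      ∃ a : ℕ, a ≤ p ∧ ∃ f : Bool, ∀ b : ℕ, b ≤ TB - p → ∀ g : Bool,
        (leftTakes mark a b →
          ∃ X, LO G X ∧
            LeftWins TB X (p - a) (nextMarker mark a b (if mark = true then f else g))) ∧
        (¬ leftTakes mark a b →
          ∀ X, RO G X →
            LeftWins TB X (p + b) (nextMarker mark a b (if mark = true then f else g))) := by
  cases G with
  | node m n L R => simp [LeftWins, LO, RO]

theorem rightWins_iff (TB : ℕ) (G : Form) (p : ℕ) (mark : Bool) :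
    RightWins TB G p mark ↔
      ∃ b : ℕ, b ≤ TB - p ∧ ∃ g : Bool, ∀ a : ℕ, a ≤ p → ∀ f : Bool,
        (leftTakes mark a b →
          ∀ X, LO G X →
            RightWins TB X (p - a) (nextMarker mark a b (if mark = true then f else g))) ∧
        (¬ leftTakes mark a b →
          ∃ X, RO G X ∧
            RightWins TB X (p + b) (nextMarker mark a b (if mark = true then f else g))) := by
  cases G with
  | node m n L R => simp [RightWins, LO, RO]

/-! ### The two basic predicates -/

/-- Some Left option is won by Left with budget `x`, Right holding the marker. -/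
def ll (TB : ℕ) (K : Form) (x : ℕ) : Prop := ∃ X, LO K X ∧ LeftWins TB X x false

/-- Every Right option is won by Left with budget `y`, Left holding the marker. -/
def rr (TB : ℕ) (K : Form) (y : ℕ) : Prop := ∀ X, RO K X → LeftWins TB X y true

theorem mono_step {P : ℕ → Prop} {TB : ℕ} (h : ∀ p, p + 1 ≤ TB → P p → P (p + 1)) {p q : ℕ}
    (hpq : p ≤ q) (hq : q ≤ TB) (hp : P p) : P q := by
  induction q, hpq using Nat.le_induction with
  | base => exact hp
  | succ n hn ih => exact h n hq (ih (by omega))

/-- Normal form of the winning condition, and monotonicity in money. -/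
theorem basic (TB : ℕ) : ∀ K : Form,
    (∀ p, p ≤ TB → (LeftWins TB K p false ↔
      (rr TB K p ∨ ∃ a, 1 ≤ a ∧ a ≤ p ∧ ll TB K (p - a) ∧ (p + a ≤ TB → rr TB K (p + a))))) ∧
    (∀ p, p ≤ TB → (LeftWins TB K p true ↔
      ∃ a, a ≤ p ∧ ll TB K (p - a) ∧ (p + a + 1 ≤ TB → rr TB K (p + a + 1)))) ∧
    (∀ p mark, p + 1 ≤ TB → LeftWins TB K p mark → LeftWins TB K (p + 1) mark) ∧
    (∀ p, p + 1 ≤ TB → LeftWins TB K p true → LeftWins TB K (p + 1) false) := by
  refine form_ind ?_
  intro K ihL ihR
  -- monotonicity of options
  have llmono : ∀ p q, p ≤ q → q ≤ TB → ll TB K p → ll TB K q := by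
    rintro p q hpq hq ⟨X, hX, hw⟩
    exact ⟨X, hX, mono_step (P := fun t => LeftWins TB X t false)
      (fun t ht hh => (ihL X hX).2.2.1 t false ht hh) hpq hq hw⟩
  have rrmono : ∀ p q, p ≤ q → q ≤ TB → rr TB K p → rr TB K q := by
    intro p q hpq hq hw X hX
    exact mono_step (P := fun t => LeftWins TB X t true)
      (fun t ht hh => (ihR X hX).2.2.1 t true ht hh) hpq hq (hw X hX)
  have rrflip : ∀ p q, p + 1 ≤ q → q ≤ TB → rr TB K p → ∀ X, RO K X → LeftWins TB X q false := by
    intro p q hpq hq hw X hX
    have h1 : LeftWins TB X (p + 1) false := (ihR X hX).2.2.2 p (by omega) (hw X hX)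
    exact mono_step (P := fun t => LeftWins TB X t false)
      (fun t ht hh => (ihR X hX).2.2.1 t false ht hh) hpq hq h1
  have A1 : ∀ p, p ≤ TB → (LeftWins TB K p false ↔
      (rr TB K p ∨ ∃ a, 1 ≤ a ∧ a ≤ p ∧ ll TB K (p - a) ∧ (p + a ≤ TB → rr TB K (p + a)))) := by
    intro p hp
    rw [leftWins_iff]
    constructor
    · rintro ⟨a, ha, f, hw⟩
      rcases Nat.eq_zero_or_pos a with h0 | h0
      · subst h0
        left
        intro X hX
        have h := (hw 0 (by omega) false).2 (by simp [leftTakes]) X hX
        simpa [nextMarker] using h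
      · right
        refine ⟨a, h0, ha, ?_, ?_⟩
        · obtain ⟨X, hX, h⟩ := (hw 0 (by omega) false).1 (by simp [leftTakes, h0])
          refine ⟨X, hX, ?_⟩
          have hne : a ≠ 0 := by omega
          simpa [nextMarker, hne] using h
        · intro hle X hX
          have h := (hw a (by omega) false).2 (by simp [leftTakes]) X hX
          simpa [nextMarker] using h
    · rintro (h | ⟨a, h1, ha, hl, hr⟩)
      · refine ⟨0, by omega, false, ?_⟩
        intro b hb g
        refine ⟨?_, ?_⟩
        · intro ht
          simp [leftTakes] at ht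
        · intro _ X hX
          by_cases hb0 : b = 0
          · subst hb0
            simpa [nextMarker] using h X hX
          · have hb1 : ¬ (0 = b) := fun hh => hb0 hh.symm
            cases g with
            | false =>
              have : nextMarker false 0 b (if false = true then false else false) = false := by
                simp [nextMarker, hb1]
              rw [this]
              exact rrflip p (p + b) (by omega) (by omega) h X hX
            | true =>
              have : nextMarker false 0 b (if false = true then false else true) = true := by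
                simp [nextMarker, hb1]
              rw [this]
              exact rrmono p (p + b) (by omega) (by omega) h X hX
      · refine ⟨a, ha, false, ?_⟩
        intro b hb g
        refine ⟨?_, ?_⟩
        · intro ht
          have hba : b < a := by simpa [leftTakes] using ht
          have hne : ¬ (a = b) := by omega
          obtain ⟨X, hX, hw⟩ := hl
          refine ⟨X, hX, ?_⟩
          have : nextMarker false a b (if false = true then false else g) = false := by
            simp [nextMarker, hne, hba]
          rw [this]
          exact hw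
        · intro ht X hX
          have hab : a ≤ b := by simpa [leftTakes] using ht
          have hra := hr (by omega)
          by_cases hb0 : a = b
          · subst hb0
            simpa [nextMarker] using hra X hX
          · have hnlt : ¬ (b < a) := by omega
            cases g with
            | false =>
              have : nextMarker false a b (if false = true then false else false) = false := by
                simp [nextMarker, hb0]
              rw [this]
              exact rrflip (p + a) (p + b) (by omega) (by omega) hra X hX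
            | true =>
              have : nextMarker false a b (if false = true then false else true) = true := by
                simp [nextMarker, hb0, hnlt]
              rw [this]
              exact rrmono (p + a) (p + b) (by omega) (by omega) hra X hX
  have A2 : ∀ p, p ≤ TB → (LeftWins TB K p true ↔
      ∃ a, a ≤ p ∧ ll TB K (p - a) ∧ (p + a + 1 ≤ TB → rr TB K (p + a + 1))) := by
    intro p hp
    rw [leftWins_iff]
    constructor
    · rintro ⟨a, ha, f, hw⟩
      by_cases hq : a ≤ TB - p
      · refine ⟨a, ha, ?_, ?_⟩
        · obtain ⟨X, hX, h⟩ := (hw a hq false).1 (by simp [leftTakes])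
          refine ⟨X, hX, ?_⟩
          simpa [nextMarker] using h
        · intro hle X hX
          have hne : ¬ (a = a + 1) := by omega
          have h := (hw (a + 1) (by omega) false).2 (by simp [leftTakes]) X hX
          have h2 : nextMarker true a (a + 1) (if true = true then f else false) = true := by
            simp [nextMarker]
          rw [h2] at h
          exact h
      · obtain ⟨X, hX, h⟩ := (hw 0 (by omega) false).1 (by
          left; omega)
        have hne : ¬ (a = 0) := by omega
        have hpos : 0 < a := by omega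
        cases f with
        | true =>
          refine ⟨a, ha, ⟨X, hX, ?_⟩, ?_⟩
          · simpa [nextMarker, hne, hpos] using h
          · intro hle
            omega
        | false =>
          refine ⟨a - 1, by omega, ⟨X, hX, ?_⟩, ?_⟩
          · have h2 : LeftWins TB X (p - a) true := by
              simpa [nextMarker, hne, hpos] using h
            have h3 := (ihL X hX).2.2.2 (p - a) (by omega) h2
            have h4 : p - (a - 1) = p - a + 1 := by omega
            rw [h4]
            exact h3
          · intro hle
            omega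
    · rintro ⟨a, ha, hl, hr⟩
      refine ⟨a, ha, true, ?_⟩
      intro b hb g
      refine ⟨?_, ?_⟩
      · intro ht
        have hba : b ≤ a := by
          rcases ht with h | h
          · omega
          · omega
        obtain ⟨X, hX, hw⟩ := hl
        refine ⟨X, hX, ?_⟩
        have : nextMarker true a b (if true = true then true else g) = false := by
          unfold nextMarker
          by_cases hab : a = b
          · simp [hab]
          · have : b < a := by omega
            simp [this]
        rw [this]
        exact hw
      · intro ht X hX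
        have hab : a < b := by
          by_contra hcon
          apply ht
          by_cases hab : a = b
          · right
            exact ⟨hab, rfl⟩
          · left
            omega
        have hra := hr (by omega)
        have h1 : ¬ (a = b) := by omega
        have h2 : ¬ (b < a) := by omega
        have : nextMarker true a b (if true = true then true else g) = true := by
          simp [nextMarker, h1, h2]
        rw [this]
        exact rrmono (p + a + 1) (p + b) (by omega) (by omega) hra X hX
  refine ⟨A1, A2, ?_, ?_⟩
  · intro p mark hp hw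
    cases mark with
    | false =>
      rw [A1 p (by omega)] at hw
      rw [A1 (p + 1) hp]
      rcases hw with h | ⟨a, h1, ha, hl, hr⟩
      · left
        exact rrmono p (p + 1) (by omega) hp h
      · right
        refine ⟨a, h1, by omega, llmono (p - a) (p + 1 - a) (by omega) (by omega) hl, ?_⟩
        intro hle
        exact rrmono (p + a) (p + 1 + a) (by omega) hle (hr (by omega))
    | true =>
      rw [A2 p (by omega)] at hw
      rw [A2 (p + 1) hp]
      obtain ⟨a, ha, hl, hr⟩ := hw
      refine ⟨a, by omega, llmono (p - a) (p + 1 - a) (by omega) (by omega) hl, ?_⟩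
      intro hle
      exact rrmono (p + a + 1) (p + 1 + a + 1) (by omega) hle (hr (by omega))
  · intro p hp hw
    rw [A2 p (by omega)] at hw
    rw [A1 (p + 1) hp]
    obtain ⟨a, ha, hl, hr⟩ := hw
    right
    refine ⟨a + 1, by omega, by omega, ?_, ?_⟩
    · have : p + 1 - (a + 1) = p - a := by omega
      rw [this]
      exact hl
    · intro hle
      exact rrmono (p + a + 1) (p + 1 + (a + 1)) (by omega) hle (hr (by omega))

theorem leftWins_false_iff {TB : ℕ} (K : Form) {p : ℕ} (hp : p ≤ TB) :
    LeftWins TB K p false ↔
      (rr TB K p ∨ ∃ a, 1 ≤ a ∧ a ≤ p ∧ ll TB K (p - a) ∧ (p + a ≤ TB → rr TB K (p + a))) :=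
  (basic TB K).1 p hp

theorem leftWins_true_iff {TB : ℕ} (K : Form) {p : ℕ} (hp : p ≤ TB) :
    LeftWins TB K p true ↔
      ∃ a, a ≤ p ∧ ll TB K (p - a) ∧ (p + a + 1 ≤ TB → rr TB K (p + a + 1)) :=
  (basic TB K).2.1 p hp

theorem ll_mono {TB : ℕ} {K : Form} {p q : ℕ} (hpq : p ≤ q) (hq : q ≤ TB) (h : ll TB K p) :
    ll TB K q := by
  obtain ⟨X, hX, hw⟩ := h
  exact ⟨X, hX, mono_step (P := fun t => LeftWins TB X t false)
    (fun t ht hh => (basic TB X).2.2.1 t false ht hh) hpq hq hw⟩

theorem rr_mono {TB : ℕ} {K : Form} {p q : ℕ} (hpq : p ≤ q) (hq : q ≤ TB) (h : rr TB K p) :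
    rr TB K q := by
  intro X hX
  exact mono_step (P := fun t => LeftWins TB X t true)
    (fun t ht hh => (basic TB X).2.2.1 t true ht hh) hpq hq (h X hX)

/-! ### The invariant -/

/-- The invariant relating three positions. -/
def Inv (TB : ℕ) (B D E : Form) : Prop :=
  (∀ x y, x + y ≤ TB → rr TB B x → rr TB D y → rr TB E (x + y)) ∧
  (∀ x y, x + y ≤ TB → ll TB B x → rr TB D y → ll TB E (x + y)) ∧
  (∀ x y, x + y ≤ TB → rr TB B x → ll TB D y → ll TB E (x + y))

theorem Inv.symm {TB : ℕ} {B D E : Form} (h : Inv TB B D E) : Inv TB D B E := by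
  refine ⟨?_, ?_, ?_⟩
  · intro x y hxy hx hy
    rw [Nat.add_comm]
    exact h.1 y x (by omega) hy hx
  · intro x y hxy hx hy
    rw [Nat.add_comm]
    exact h.2.2 y x (by omega) hy hx
  · intro x y hxy hx hy
    rw [Nat.add_comm]
    exact h.2.1 y x (by omega) hy hx

theorem Inv.tl {TB : ℕ} {B D E : Form} (h : Inv TB B D E) {x y : ℕ} (hxy : x + y ≤ TB)
    (hx : LeftWins TB B x true) (hy : rr TB D y) : LeftWins TB E (x + y) true := by
  rw [leftWins_true_iff _ (by omega)] at hx
  rw [leftWins_true_iff _ hxy]
  obtain ⟨a, ha, hl, hr⟩ := hx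
  refine ⟨a, by omega, ?_, ?_⟩
  · have h1 := h.2.1 (x - a) y (by omega) hl hy
    have h2 : x + y - a = x - a + y := by omega
    rw [h2]
    exact h1
  · intro hle
    have h1 := h.1 (x + a + 1) y (by omega) (hr (by omega)) hy
    have h2 : x + y + a + 1 = x + a + 1 + y := by omega
    rw [h2]
    exact h1

theorem Inv.tr {TB : ℕ} {B D E : Form} (h : Inv TB B D E) {x y : ℕ} (hxy : x + y ≤ TB)
    (hx : LeftWins TB B x false) (hy : rr TB D y) : LeftWins TB E (x + y) false := by
  rw [leftWins_false_iff _ (by omega)] at hx
  rw [leftWins_false_iff _ hxy]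
  rcases hx with hx | ⟨a, h1, ha, hl, hr⟩
  · exact Or.inl (h.1 x y hxy hx hy)
  · right
    refine ⟨a, h1, by omega, ?_, ?_⟩
    · have h1 := h.2.1 (x - a) y (by omega) hl hy
      have h2 : x + y - a = x - a + y := by omega
      rw [h2]
      exact h1
    · intro hle
      have h1 := h.1 (x + a) y (by omega) (hr (by omega)) hy
      have h2 : x + y + a = x + a + y := by omega
      rw [h2]
      exact h1

theorem Inv.tm {TB : ℕ} {B D E : Form} (h : Inv TB B D E) {x y : ℕ} (hxy : x + y ≤ TB)
    (hx : LeftWins TB B x false) (hy : LeftWins TB D y true) : ll TB E (x + y) := by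
  rw [leftWins_false_iff _ (by omega)] at hx
  rw [leftWins_true_iff _ (by omega)] at hy
  obtain ⟨c, hc, hlc, hrc⟩ := hy
  rcases hx with hx | ⟨a, h1, ha, hl, hr⟩
  · have h2 := h.2.2 x (y - c) (by omega) hx hlc
    exact ll_mono (by omega) hxy h2
  · by_cases hac : a ≤ c
    · have h2 := h.2.2 (x + a) (y - c) (by omega) (hr (by omega)) hlc
      exact ll_mono (by omega) hxy h2
    · have h2 := h.2.1 (x - a) (y + c + 1) (by omega) hl (hrc (by omega))
      exact ll_mono (by omega) hxy h2

theorem inv_all (TB : ℕ) : ∀ A C H : Form, Inv TB (add H A) (add C (conj H)) (add C A) := by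
  refine form_ind ?_
  intro A ihAL ihAR
  refine form_ind ?_
  intro C ihCL ihCR
  refine form_ind ?_
  intro H ihHL ihHR
  refine ⟨?_, ?_, ?_⟩
  · intro x y hxy hB hD X hX
    rw [RO_add] at hX
    rcases hX with ⟨C', hC', rfl⟩ | ⟨A', hA', rfl⟩
    · -- Right moves in C
      have h1 : LeftWins TB (add C' (conj H)) y true :=
        hD _ ((RO_add _ _ _).2 (Or.inl ⟨C', hC', rfl⟩))
      have h2 := (ihCR C' hC' H).symm.tl (by omega) h1 hB
      rwa [Nat.add_comm] at h2
    · have h1 : LeftWins TB (add H A') x true :=
        hB _ ((RO_add _ _ _).2 (Or.inr ⟨A', hA', rfl⟩))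
      exact (ihAR A' hA' C H).tl hxy h1 hD
  · intro x y hxy hB hD
    obtain ⟨X, hX, hw⟩ := hB
    rw [LO_add] at hX
    rcases hX with ⟨H', hH', rfl⟩ | ⟨A', hA', rfl⟩
    · have h1 : LeftWins TB (add C (conj H')) y true :=
        hD _ ((RO_add _ _ _).2 (Or.inr ⟨conj H', (RO_conj _ _).2 ⟨H', hH', rfl⟩, rfl⟩))
      exact (ihHL H' hH').tm hxy hw h1
    · exact ⟨add C A', (LO_add _ _ _).2 (Or.inr ⟨A', hA', rfl⟩),
        (ihAL A' hA' C H).tr hxy hw hD⟩
  · intro x y hxy hB hD
    obtain ⟨X, hX, hw⟩ := hD
    rw [LO_add] at hX
    rcases hX with ⟨C', hC', rfl⟩ | ⟨H'', hH'', rfl⟩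
    · refine ⟨add C' A, (LO_add _ _ _).2 (Or.inl ⟨C', hC', rfl⟩), ?_⟩
      have h2 := (ihCL C' hC' H).symm.tr (by omega) hw hB
      rwa [Nat.add_comm] at h2
    · rw [LO_conj] at hH''
      obtain ⟨H', hH', rfl⟩ := hH''
      have h1 : LeftWins TB (add H' A) x true :=
        hB _ ((RO_add _ _ _).2 (Or.inl ⟨H', hH', rfl⟩))
      have h2 := (ihHR H' hH').symm.tm (by omega) hw h1
      rwa [Nat.add_comm] at h2

/-- If Left wins `C - H` when Right owns the whole budget and the marker, then `C ≥ H`. -/
theorem ge_of_rr {TB : ℕ} {C H : Form} (h : rr TB (add C (conj H)) 0) : Ge TB C H := by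
  intro X p mark hp hw
  have hI := inv_all TB X C H
  cases mark with
  | true => exact hI.tl (y := 0) (by omega) hw h
  | false => exact hI.tr (y := 0) (by omega) hw h

/-! ### Forms with the same outcomes -/

/-- Two forms have the same outcome for every distribution. -/
def Same (TB : ℕ) (G H : Form) : Prop := ∀ p mark, LeftWins TB G p mark ↔ LeftWins TB H p mark

theorem same_of {TB : ℕ} {G H : Form}
    (h1 : ∀ X, LO G X → ∃ Y, LO H Y ∧ Same TB X Y)
    (h2 : ∀ Y, LO H Y → ∃ X, LO G X ∧ Same TB X Y)
    (h3 : ∀ X, RO G X → ∃ Y, RO H Y ∧ Same TB X Y)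
    (h4 : ∀ Y, RO H Y → ∃ X, RO G X ∧ Same TB X Y) : Same TB G H := by
  intro p mark
  have eL : ∀ q k, (∃ X, LO G X ∧ LeftWins TB X q k) ↔ (∃ X, LO H X ∧ LeftWins TB X q k) := by
    intro q k
    constructor
    · rintro ⟨X, hX, hw⟩
      obtain ⟨Y, hY, hs⟩ := h1 X hX
      exact ⟨Y, hY, (hs q k).1 hw⟩
    · rintro ⟨Y, hY, hw⟩
      obtain ⟨X, hX, hs⟩ := h2 Y hY
      exact ⟨X, hX, (hs q k).2 hw⟩
  have eR : ∀ q k, (∀ X, RO G X → LeftWins TB X q k) ↔ (∀ X, RO H X → LeftWins TB X q k) := by
    intro q k
    constructor
    · intro hw Y hY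
      obtain ⟨X, hX, hs⟩ := h4 Y hY
      exact (hs q k).1 (hw X hX)
    · intro hw X hX
      obtain ⟨Y, hY, hs⟩ := h3 X hX
      exact (hs q k).2 (hw Y hY)
  rw [leftWins_iff, leftWins_iff]
  simp only [eL, eR]

theorem add_comm_same (TB : ℕ) : ∀ G H : Form, Same TB (add G H) (add H G) := by
  refine form_ind ?_
  intro G ihGL ihGR
  refine form_ind ?_
  intro H ihHL ihHR
  refine same_of ?_ ?_ ?_ ?_
  · intro X hX
    rw [LO_add] at hX
    rcases hX with ⟨G', hG', rfl⟩ | ⟨H', hH', rfl⟩
    · exact ⟨_, (LO_add _ _ _).2 (Or.inr ⟨G', hG', rfl⟩), ihGL G' hG' H⟩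
    · exact ⟨_, (LO_add _ _ _).2 (Or.inl ⟨H', hH', rfl⟩), ihHL H' hH'⟩
  · intro X hX
    rw [LO_add] at hX
    rcases hX with ⟨H', hH', rfl⟩ | ⟨G', hG', rfl⟩
    · exact ⟨_, (LO_add _ _ _).2 (Or.inr ⟨H', hH', rfl⟩), ihHL H' hH'⟩
    · exact ⟨_, (LO_add _ _ _).2 (Or.inl ⟨G', hG', rfl⟩), ihGL G' hG' H⟩
  · intro X hX
    rw [RO_add] at hX
    rcases hX with ⟨G', hG', rfl⟩ | ⟨H', hH', rfl⟩
    · exact ⟨_, (RO_add _ _ _).2 (Or.inr ⟨G', hG', rfl⟩), ihGR G' hG' H⟩
    · exact ⟨_, (RO_add _ _ _).2 (Or.inl ⟨H', hH', rfl⟩), ihHR H' hH'⟩
  · intro X hX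
    rw [RO_add] at hX
    rcases hX with ⟨H', hH', rfl⟩ | ⟨G', hG', rfl⟩
    · exact ⟨_, (RO_add _ _ _).2 (Or.inr ⟨H', hH', rfl⟩), ihHR H' hH'⟩
    · exact ⟨_, (RO_add _ _ _).2 (Or.inl ⟨G', hG', rfl⟩), ihGR G' hG' H⟩

theorem add_zero_same (TB : ℕ) : ∀ G : Form, Same TB (add G zero) G := by
  refine form_ind ?_
  intro G ihL ihR
  refine same_of ?_ ?_ ?_ ?_
  · intro X hX
    rw [LO_add] at hX
    rcases hX with ⟨G', hG', rfl⟩ | ⟨H', hH', rfl⟩
    · exact ⟨G', hG', ihL G' hG'⟩
    · exact absurd hH' (LO_zero _)
  · intro Y hY
    exact ⟨_, (LO_add _ _ _).2 (Or.inl ⟨Y, hY, rfl⟩), ihL Y hY⟩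
  · intro X hX
    rw [RO_add] at hX
    rcases hX with ⟨G', hG', rfl⟩ | ⟨H', hH', rfl⟩
    · exact ⟨G', hG', ihR G' hG'⟩
    · exact absurd hH' (RO_zero _)
  · intro Y hY
    exact ⟨_, (RO_add _ _ _).2 (Or.inl ⟨Y, hY, rfl⟩), ihR Y hY⟩

theorem conj_conj (G : Form) : conj (conj G) = G := by
  induction G with
  | node m n L R ihL ihR =>
    simp only [conj]
    congr 1
    · funext i
      exact ihL i
    · funext j
      exact ihR j

theorem conj_append {m n : ℕ} (u : Fin m → Form) (v : Fin n → Form) (i : Fin (m + n)) :
    conj (Fin.append u v i) = Fin.append (fun i => conj (u i)) (fun j => conj (v j)) i := by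
  induction i using Fin.addCases with
  | left i => simp
  | right j => simp

theorem conj_add (G : Form) : ∀ H : Form, conj (add G H) = add (conj G) (conj H) := by
  induction G with
  | node m n L R ihL ihR =>
    intro H
    induction H with
    | node m' n' L' R' jhL jhR =>
      rw [add_node]
      simp only [conj]
      rw [add_node]
      congr 1
      · funext j
        rw [conj_append]
        congr 1
        · funext j
          rw [ihR j]
          simp only [conj]
        · funext j
          have := jhR j
          simp only [conj] at this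
          exact this
      · funext i
        rw [conj_append]
        congr 1
        · funext i
          rw [ihL i]
          simp only [conj]
        · funext i
          have := jhL i
          simp only [conj] at this
          exact this

/-! ### Determinacy -/

theorem ll_conj {TB : ℕ} {K : Form}
    (h : ∀ X, RO K X → ∀ p, p ≤ TB → ∀ mark,
      (LeftWins TB (conj X) (TB - p) (!mark) ↔ ¬ LeftWins TB X p mark)) {x : ℕ} (hx : x ≤ TB) :
    ll TB (conj K) x ↔ ¬ rr TB K (TB - x) := by
  constructor
  · rintro ⟨Y, hY, hw⟩ hr
    rw [LO_conj] at hY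
    obtain ⟨X, hX, rfl⟩ := hY
    have h1 := h X hX (TB - x) (by omega) true
    have h2 : TB - (TB - x) = x := by omega
    rw [h2] at h1
    exact h1.1 hw (hr X hX)
  · intro hr
    unfold rr at hr
    push Not at hr
    obtain ⟨X, hX, hw⟩ := hr
    refine ⟨conj X, (LO_conj _ _).2 ⟨X, hX, rfl⟩, ?_⟩
    have h1 := h X hX (TB - x) (by omega) true
    have h2 : TB - (TB - x) = x := by omega
    rw [h2] at h1
    exact h1.2 hw

theorem rr_conj {TB : ℕ} {K : Form}
    (h : ∀ X, LO K X → ∀ p, p ≤ TB → ∀ mark,
      (LeftWins TB (conj X) (TB - p) (!mark) ↔ ¬ LeftWins TB X p mark)) {y : ℕ} (hy : y ≤ TB) :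
    rr TB (conj K) y ↔ ¬ ll TB K (TB - y) := by
  constructor
  · rintro hr ⟨X, hX, hw⟩
    have h1 := h X hX (TB - y) (by omega) false
    have h2 : TB - (TB - y) = y := by omega
    rw [h2] at h1
    exact h1.1 (hr _ ((RO_conj _ _).2 ⟨X, hX, rfl⟩)) hw
  · intro hl Y hY
    rw [RO_conj] at hY
    obtain ⟨X, hX, rfl⟩ := hY
    have h1 := h X hX (TB - y) (by omega) false
    have h2 : TB - (TB - y) = y := by omega
    rw [h2] at h1
    exact h1.2 (fun hw => hl ⟨X, hX, hw⟩)

/-- Purely arithmetical form of determinacy. -/
theorem det_arith {TB p : ℕ} (hp : p ≤ TB) {l r : ℕ → Prop}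
    (hl : ∀ x y, x ≤ y → y ≤ TB → l x → l y) (hr : ∀ x y, x ≤ y → y ≤ TB → r x → r y) :
    (¬ l p ∨ ∃ a, 1 ≤ a ∧ a ≤ TB - p ∧ ¬ r (p + a) ∧ (TB - p + a ≤ TB → ¬ l (p - a))) ↔
    ¬ ∃ a, a ≤ p ∧ l (p - a) ∧ (p + a + 1 ≤ TB → r (p + a + 1)) := by
  constructor
  · rintro h ⟨a, ha, hla, hra⟩
    rcases h with h | ⟨c, hc1, hc2, hc3, hc4⟩
    · exact h (hl (p - a) p (by omega) hp hla)
    · by_cases hca : c ≤ a
      · exact hc4 (by omega) (hl (p - a) (p - c) (by omega) (by omega) hla)
      · exact hc3 (hr (p + a + 1) (p + c) (by omega) (by omega) (hra (by omega)))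
  · intro h
    by_cases hlp : l p
    · right
      classical
      have hex : ∃ x, l x := ⟨p, hlp⟩
      have hmin := Nat.find_spec hex
      have hle : Nat.find hex ≤ p := Nat.find_min' hex hlp
      set x := Nat.find hex with hx
      have hnot : ¬ (p + (p - x) + 1 ≤ TB → r (p + (p - x) + 1)) := by
        intro hh
        apply h
        refine ⟨p - x, by omega, ?_, hh⟩
        have : p - (p - x) = x := by omega
        rw [this]
        exact hmin
      have hTB : p + (p - x) + 1 ≤ TB := by
        by_contra hcon
        exact hnot (fun hh => absurd hh hcon)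
      have hnr : ¬ r (p + (p - x) + 1) := fun hh => hnot (fun _ => hh)
      refine ⟨p - x + 1, by omega, by omega, ?_, ?_⟩
      · have : p + (p - x + 1) = p + (p - x) + 1 := by omega
        rw [this]
        exact hnr
      · intro hle2 hcon
        by_cases hx0 : x = 0
        · -- then the bid exceeds the budget of Left
          omega
        · exact Nat.find_min hex (m := p - (p - x + 1)) (by omega) hcon
    · exact Or.inl hlp

theorem det_conj (TB : ℕ) : ∀ K : Form, ∀ p, p ≤ TB → ∀ mark,
    (LeftWins TB (conj K) (TB - p) (!mark) ↔ ¬ LeftWins TB K p mark) := by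
  refine form_ind ?_
  intro K ihL ihR
  have key : ∀ (K : Form), (∀ X, LO K X → ∀ p, p ≤ TB → ∀ mark,
      (LeftWins TB (conj X) (TB - p) (!mark) ↔ ¬ LeftWins TB X p mark)) →
      (∀ X, RO K X → ∀ p, p ≤ TB → ∀ mark,
      (LeftWins TB (conj X) (TB - p) (!mark) ↔ ¬ LeftWins TB X p mark)) →
      ∀ p, p ≤ TB → (LeftWins TB (conj K) (TB - p) false ↔ ¬ LeftWins TB K p true) := by
    intro K hL hR p hp
    rw [leftWins_false_iff (conj K) (p := TB - p) (by omega), leftWins_true_iff K hp]
    rw [← det_arith hp (l := ll TB K) (r := rr TB K) (fun x y h1 h2 h3 => ll_mono h1 h2 h3)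
      (fun x y h1 h2 h3 => rr_mono h1 h2 h3)]
    constructor
    · rintro (h | ⟨a, h1, ha, hla, hra⟩)
      · left
        rw [rr_conj hL (by omega)] at h
        have : TB - (TB - p) = p := by omega
        rwa [this] at h
      · right
        refine ⟨a, h1, ha, ?_, ?_⟩
        · rw [ll_conj hR (by omega)] at hla
          have : TB - (TB - p - a) = p + a := by omega
          rwa [this] at hla
        · intro hle
          have h2 := hra hle
          rw [rr_conj hL hle] at h2
          have : TB - (TB - p + a) = p - a := by omega
          rwa [this] at h2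
    · rintro (h | ⟨a, h1, ha, hla, hra⟩)
      · left
        rw [rr_conj hL (by omega)]
        have : TB - (TB - p) = p := by omega
        rwa [this]
      · right
        refine ⟨a, h1, ha, ?_, ?_⟩
        · rw [ll_conj hR (by omega)]
          have : TB - (TB - p - a) = p + a := by omega
          rwa [this]
        · intro hle
          have h2 := hra hle
          rw [rr_conj hL hle]
          have : TB - (TB - p + a) = p - a := by omega
          rwa [this]
  intro p hp mark
  cases mark with
  | true => exact key K ihL ihR p hp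
  | false =>
    have hc := key (conj K)
      (by
        intro Y hY q hq k
        rw [LO_conj] at hY
        obtain ⟨X, hX, rfl⟩ := hY
        rw [conj_conj]
        have h1 := ihR X hX (TB - q) (by omega) (!k)
        have h2 : TB - (TB - q) = q := by omega
        rw [h2, Bool.not_not] at h1
        rw [h1, not_not])
      (by
        intro Y hY q hq k
        rw [RO_conj] at hY
        obtain ⟨X, hX, rfl⟩ := hY
        rw [conj_conj]
        have h1 := ihL X hX (TB - q) (by omega) (!k)
        have h2 : TB - (TB - q) = q := by omega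
        rw [h2, Bool.not_not] at h1
        rw [h1, not_not])
      (TB - p) (by omega)
    rw [conj_conj] at hc
    have h2 : TB - (TB - p) = p := by omega
    rw [h2] at hc
    simp only [Bool.not_false]
    rw [hc, not_not]

theorem leftTakes_flip (mark : Bool) (a b : ℕ) : leftTakes (!mark) b a ↔ ¬ leftTakes mark a b := by
  unfold leftTakes
  cases mark with
  | true =>
    simp
    omega
  | false =>
    simp
    omega

theorem nextMarker_flip (mark : Bool) (a b : ℕ) (f : Bool) :
    nextMarker (!mark) b a f = !(nextMarker mark a b f) := by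
  unfold nextMarker
  rcases Nat.lt_trichotomy a b with h | h | h
  · have h1 : ¬ (b = a) := by omega
    have h2 : ¬ (a = b) := by omega
    have h3 : ¬ (b < a) := by omega
    cases mark <;> cases f <;> simp [h, h1, h2, h3]
  · subst h
    simp
  · have h1 : ¬ (b = a) := by omega
    have h2 : ¬ (a = b) := by omega
    have h3 : ¬ (a < b) := by omega
    cases mark <;> cases f <;> simp [h, h1, h2, h3]

theorem rightWins_iff_conj (TB : ℕ) : ∀ K : Form, ∀ p, p ≤ TB → ∀ mark,
    (RightWins TB K p mark ↔ LeftWins TB (conj K) (TB - p) (!mark)) := by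
  refine form_ind ?_
  intro K ihL ihR p hp mark
  rw [rightWins_iff, leftWins_iff]
  have hTB : TB - (TB - p) = p := by omega
  rw [hTB]
  have hflag : ∀ f g : Bool, (if (!mark) = true then g else f) = (if mark = true then f else g) := by
    intro f g
    cases mark <;> simp
  refine exists_congr fun b => and_congr_right fun hb => exists_congr fun g =>
    forall_congr' fun a => forall_congr' fun ha => forall_congr' fun f => ?_
  rw [leftTakes_flip, hflag, nextMarker_flip, not_not]
  rw [and_comm]
  refine and_congr ?_ ?_
  · refine imp_congr_right fun _ => ?_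
    constructor
    · rintro ⟨X, hX, hw⟩
      refine ⟨conj X, (LO_conj _ _).2 ⟨X, hX, rfl⟩, ?_⟩
      have h1 := (ihR X hX (p + b) (by omega) _).1 hw
      have h2 : TB - (p + b) = TB - p - b := by omega
      rwa [h2] at h1
    · rintro ⟨Y, hY, hw⟩
      rw [LO_conj] at hY
      obtain ⟨X, hX, rfl⟩ := hY
      refine ⟨X, hX, (ihR X hX (p + b) (by omega) _).2 ?_⟩
      have h2 : TB - (p + b) = TB - p - b := by omega
      rwa [h2]
  · refine imp_congr_right fun _ => ?_
    constructor
    · intro hw Y hY
      rw [RO_conj] at hY
      obtain ⟨X, hX, rfl⟩ := hY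
      have h1 := (ihL X hX (p - a) (by omega) _).1 (hw X hX)
      have h2 : TB - (p - a) = TB - p + a := by omega
      rwa [h2] at h1
    · intro hw X hX
      refine (ihL X hX (p - a) (by omega) _).2 ?_
      have h1 := hw _ ((RO_conj _ _).2 ⟨X, hX, rfl⟩)
      have h2 : TB - (p - a) = TB - p + a := by omega
      rwa [h2]

/-- Determinacy: at every position exactly one of the two players has a winning bid. -/
theorem leftWins_iff_not_rightWins (TB : ℕ) (G : Form) (p : ℕ) (mark : Bool) (hp : p ≤ TB) :
    LeftWins TB G p mark ↔ ¬ RightWins TB G p mark := by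
  rw [rightWins_iff_conj TB G p hp mark, det_conj TB G p hp mark, not_not]

/-! ### The main theorem -/

theorem rr_zero_of_leftWins {TB : ℕ} {K : Form} (h : LeftWins TB K 0 false) : rr TB K 0 := by
  rw [leftWins_false_iff K (Nat.zero_le TB)] at h
  rcases h with h | ⟨a, h1, h2, -⟩
  · exact h
  · omega

/-- For every total budget `TB` and all game forms `G`, `H`: if `G + H = 0`, then `H` equals the
conjugate of `G`. -/
theorem result : ∀ (TB : ℕ) (G H : Form), IsInverse TB G H → Eqv TB H (conj G) := by
  intro TB G H hinv
  obtain ⟨h1, h2⟩ := hinv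
  constructor
  · -- `G + H ≥ 0` gives `H ≥ conj G`
    have h00 : LeftWins TB (add zero zero) 0 false := by
      rw [leftWins_false_iff _ (Nat.zero_le TB)]
      left
      intro X hX
      rw [RO_add] at hX
      rcases hX with ⟨Y, hY, -⟩ | ⟨Y, hY, -⟩
      · exact absurd hY (RO_zero _)
      · exact absurd hY (RO_zero _)
    have h3 := h1 zero 0 false (Nat.zero_le TB) h00
    rw [add_zero_same TB (add G H) 0 false, add_comm_same TB G H 0 false] at h3
    have h4 := rr_zero_of_leftWins h3
    apply ge_of_rr
    rw [conj_conj]
    exact h4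
  · -- `0 ≥ G + H` gives `conj G ≥ H`
    have h00 : ¬ LeftWins TB (add zero zero) TB true := by
      rw [leftWins_true_iff _ le_rfl]
      rintro ⟨a, -, ⟨X, hX, -⟩, -⟩
      rw [LO_add] at hX
      rcases hX with ⟨Y, hY, -⟩ | ⟨Y, hY, -⟩
      · exact absurd hY (LO_zero _)
      · exact absurd hY (LO_zero _)
    have h3 : ¬ LeftWins TB (add G H) TB true := by
      intro hw
      exact h00 (h2 zero TB true le_rfl ((add_zero_same TB (add G H) TB true).2 hw))
    have h4 := (det_conj TB (add G H) TB le_rfl true).2 h3
    rw [conj_add, Nat.sub_self] at h4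
    exact ge_of_rr (rr_zero_of_leftWins h4)

end Pool.Agent.Results.MP_14f067_co.InverseIsConjugate
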